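import Pool.Agent.helper29.JZ.Spec

set_option autoImplicit false

open Finset Polynomial Module

namespace Pool.Agent.helper48.JZ

open Pool.Agent.helper29.JZ

theorem jz_OMG : OMG_stmt := by
  intro h h' a b S hS
  classical
  have hn : a * b + 1 ≠ 0 := Nat.succ_ne_zero _
  obtain ⟨ζ, hζ⟩ : ∃ ζ : ℂ, IsPrimitiveRoot ζ (a * b + 1) := ⟨_, Complex.isPrimitiveRoot_exp _ hn⟩
  have hroot : ∀ i : ℕ, (ζ ^ i) ^ (a * b + 1) = 1 := by
    intro i
    rw [← pow_mul, mul_comm, pow_mul, hζ.pow_eq_one, one_pow]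
  obtain ⟨ω, hω⟩ : ∃ ω : Fin h × Fin h' → ℂ, ω = fun z =>
      if hz : z ∈ S then ζ ^ ((S.equivFin ⟨z, hz⟩ : Fin S.card) : ℕ) else 1 := ⟨_, rfl⟩
  have h1 : ∀ z, (ω z) ^ (a * b + 1) = 1 := by
    intro z
    rw [hω]
    dsimp only
    split_ifs with hz
    · exact hroot _
    · exact one_pow _
  have h2 : ∀ z ∈ S, ∀ z' ∈ S, ω z = ω z' → z = z' := by
    intro z hz z' hz' he
    rw [hω] at he
    dsimp only at he
    rw [dif_pos hz, dif_pos hz'] at he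
    have h3 := hζ.pow_inj (lt_of_lt_of_le (S.equivFin ⟨z, hz⟩).2 hS)
      (lt_of_lt_of_le (S.equivFin ⟨z', hz'⟩).2 hS) he
    have h4 := S.equivFin.injective (Fin.ext h3)
    exact congrArg Subtype.val h4
  refine ⟨ω, h1, h2, fun z hz z' hz' he => h2 z hz z' hz' ?_⟩
  have e1 : ((ω z) ^ a) ^ b * ω z = 1 := by
    rw [← pow_mul, ← pow_succ]
    exact h1 z
  have e2 : ((ω z') ^ a) ^ b * ω z' = 1 := by
    rw [← pow_mul, ← pow_succ]
    exact h1 z'
  rw [← he] at e2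
  have h0 : ((ω z) ^ a) ^ b ≠ 0 := by
    intro h0
    rw [h0, zero_mul] at e1
    exact zero_ne_one e1
  exact mul_left_cancel₀ h0 (e1.trans e2.symm)

end Pool.Agent.helper48.JZ
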